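import Pool.Agent.Q195.L2.GMEa

/-!
Project L2M (helper255), job GME: Gaussian moments with test functions.
-/

set_option autoImplicit false

namespace Pool.Agent.Q195.L2

open Filter Topology MeasureTheory Set
open Pool.Agent.Q255.IC Pool.Agent.Q255.IR Pool.Agent.Q255.EP Pool.Agent.Q255.L2 Pool.Agent.Q65.L2
open Pool.Agent.Q152.QT (gm)

theorem ph_eq (b : Bool) (f : ℕ → ℝ) (T : ℝ) (a : ℕ → ℝ) (x y : ℝ) :
    ph b f T a x y = ∑' n : ℕ, tm T a b x y (n + 1) * f (n + 1) := by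
  cases b
  · exact phs_eq f T a x y
  · exact phc_eq f T a x y

/-- every term, for all `y ≥ y₀` -/
theorem tm_all {T y₀ y x B : ℝ} {a : ℕ → ℝ} (b : Bool) (hy₀ : 0 < y₀) (hy : y₀ ≤ y) {n : ℕ}
    (hn : 1 ≤ n) (ha : |a n| ≤ B * (n : ℝ) ^ 2) :
    |tm T a b x y n| ≤ Real.exp (Real.pi * T / 2) * B * ((n : ℝ) ^ 2 * Real.exp (-y₀ * n)) := by
  have hn1 : (1 : ℝ) ≤ n := by exact_mod_cast hn
  have hn0 : (0 : ℝ) < n := by linarith
  have hpi := Real.pi_pos
  have hpi3 := Real.pi_gt_three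
  have hy0 : 0 < y := hy₀.trans_le hy
  have hB : 0 ≤ B * (n : ℝ) ^ 2 := (abs_nonneg _).trans ha
  have hu : 0 < 2 * Real.pi * n * y := by positivity
  have hKB := Pool.Agent.Q241.L2.kode.2.1 T (2 * Real.pi * n * y) hu
  have hs : √y * √(Real.pi / (2 * (2 * Real.pi * n * y))) ≤ 1 := by
    rw [← Real.sqrt_mul hy0.le, Real.sqrt_le_left zero_le_one, one_pow]
    have : y * (Real.pi / (2 * (2 * Real.pi * n * y))) = 1 / (4 * n) := by
      field_simp
      ring
    rw [this, div_le_one (by positivity)]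
    linarith
  have hexp : Real.exp (-(2 * Real.pi * n * y)) ≤ Real.exp (-y₀ * n) := by
    apply Real.exp_le_exp.2
    have h1 : y₀ * n ≤ y * n := mul_le_mul_of_nonneg_right hy hn0.le
    have h2 : 0 ≤ y * n := by positivity
    nlinarith
  unfold tm
  rw [abs_mul, abs_mul, abs_mul, abs_mul, Real.abs_exp, abs_of_nonneg (Real.sqrt_nonneg y)]
  calc Real.exp (Real.pi * T / 2) * √y * (|a n| * |KB T (2 * Real.pi * n * y)| *
        |Real.cos (2 * Real.pi * n * x - sh b)|)
      ≤ Real.exp (Real.pi * T / 2) * √y * (B * (n : ℝ) ^ 2 *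
        (√(Real.pi / (2 * (2 * Real.pi * n * y))) * Real.exp (-(2 * Real.pi * n * y))) * 1) := by
        refine mul_le_mul_of_nonneg_left ?_ (by positivity)
        refine mul_le_mul (mul_le_mul ha hKB (abs_nonneg _) hB)
          (Real.abs_cos_le_one _) (abs_nonneg _) (mul_nonneg hB (by positivity))
    _ = (√y * √(Real.pi / (2 * (2 * Real.pi * n * y)))) *
        Real.exp (-(2 * Real.pi * n * y)) * (B * (n : ℝ) ^ 2) * Real.exp (Real.pi * T / 2) := by ring
    _ ≤ 1 * Real.exp (-y₀ * n) * (B * (n : ℝ) ^ 2) * Real.exp (Real.pi * T / 2) := by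
        refine mul_le_mul_of_nonneg_right (mul_le_mul_of_nonneg_right
          (mul_le_mul hs hexp (by positivity) zero_le_one) hB) (by positivity)
    _ = _ := by ring

theorem ph_cont {T y₀ B : ℝ} {a f : ℕ → ℝ} (b : Bool) (hy₀ : 0 < y₀)
    (ha : ∀ n : ℕ, 1 ≤ n → |a n| ≤ B * (n : ℝ) ^ 2) (hf : ∀ n, |f n| ≤ 1) :
    ContinuousOn (fun z : ℝ × ℝ => ph b f T a z.1 z.2) {z | y₀ ≤ z.2} := by
  have h0 : (fun z : ℝ × ℝ => ph b f T a z.1 z.2) =
      fun z => ∑' n : ℕ, tm T a b z.1 z.2 (n + 1) * f (n + 1) := by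
    funext z
    exact ph_eq b f T a z.1 z.2
  rw [h0]
  have hB : 0 ≤ B := by
    have h1 := (abs_nonneg _).trans (ha 1 le_rfl)
    simpa using h1
  have hsum : Summable fun n : ℕ => Real.exp (Real.pi * T / 2) * B *
      (((n + 1 : ℕ) : ℝ) ^ 2 * Real.exp (-y₀ * ((n + 1 : ℕ) : ℝ))) := by
    have h1 := Real.summable_pow_mul_exp_neg_nat_mul 2 hy₀
    exact ((summable_nat_add_iff (f := fun n : ℕ => (n : ℝ) ^ 2 * Real.exp (-y₀ * (n : ℝ))) 1).2
      h1).mul_left _
  refine continuousOn_tsum (fun n => ?_) hsum (fun n z hz => ?_)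
  · have hK : ContinuousOn (KB T) (Ioi 0) := fun u hu =>
      ((Pool.Agent.Q241.L2.kode.1 T u hu).1).continuousAt.continuousWithinAt
    have h1 : ContinuousOn (fun z : ℝ × ℝ => KB T (2 * Real.pi * ((n + 1 : ℕ) : ℝ) * z.2))
        {z | y₀ ≤ z.2} := by
      refine hK.comp (Continuous.continuousOn (by fun_prop)) fun z hz => ?_
      have hz2 : 0 < z.2 := hy₀.trans_le hz
      have hpi := Real.pi_pos
      simp only [Set.mem_Ioi]
      positivity
    unfold tm
    refine ContinuousOn.mul ?_ continuousOn_const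
    refine ContinuousOn.mul (Continuous.continuousOn (by fun_prop)) ?_
    refine ContinuousOn.mul (continuousOn_const.mul h1) (Continuous.continuousOn (by fun_prop))
  · rw [Real.norm_eq_abs, abs_mul]
    have h1 := tm_all (T := T) (x := z.1) b hy₀ hz (Nat.succ_le_succ (Nat.zero_le n))
      (ha (n + 1) (Nat.succ_le_succ (Nat.zero_le n)))
    calc |tm T a b z.1 z.2 (n + 1)| * |f (n + 1)| ≤ |tm T a b z.1 z.2 (n + 1)| * 1 :=
          mul_le_mul_of_nonneg_left (hf _) (abs_nonneg _)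
      _ ≤ _ := by rw [mul_one]; exact h1

theorem ph_per (b : Bool) (f : ℕ → ℝ) (T : ℝ) (a : ℕ → ℝ) (y : ℝ) :
    Function.Periodic (fun x => ph b f T a x y) 1 := by
  intro x
  simp only
  rw [ph_eq, ph_eq]
  congr 1
  funext n
  rw [tm_per T a b (x + 1), tm_per T a b x, Int.fract_add_one]

theorem coef_bd {ι : Type} {T : ι → ℝ} {a : ι → ℕ → ℝ} (hC : Coef T a) (i : ι) (hT : 1 ≤ T i) :
    ∃ B : ℝ, ∀ n : ℕ, 1 ≤ n → |a i n| ≤ B * (n : ℝ) ^ 2 := by
  obtain ⟨C, h⟩ := hC.1 1 one_pos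
  refine ⟨1 + |C| * T i, fun n hn => ?_⟩
  have hn1 : (1 : ℝ) ≤ n := by exact_mod_cast hn
  have h1 := h i n hn
  rw [Real.rpow_one] at h1
  have h2 : a i n ^ 8 ≤ ∑ m ∈ Finset.Icc 1 n, a i m ^ 8 :=
    Finset.single_le_sum (f := fun m => a i m ^ 8) (fun m _ => by positivity)
      (Finset.mem_Icc.2 ⟨hn, le_rfl⟩)
  have h3 : a i n ^ 8 ≤ |C| * T i * (n : ℝ) ^ 2 := by
    refine (h2.trans h1).trans ?_
    have h4 : C * ((n : ℝ) * T i) * n = C * (T i * (n : ℝ) ^ 2) := by ring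
    have h5 : |C| * T i * (n : ℝ) ^ 2 = |C| * (T i * (n : ℝ) ^ 2) := by ring
    rw [h4, h5]
    exact mul_le_mul_of_nonneg_right (le_abs_self C) (by positivity)
  have h4 : |a i n| ≤ 1 + a i n ^ 8 := by
    rcases le_or_gt |a i n| 1 with h5 | h5
    · have : 0 ≤ a i n ^ 8 := by positivity
      linarith
    · have h6 : |a i n| ≤ |a i n| ^ 8 := le_self_pow₀ h5.le (by norm_num)
      have h7 : |a i n| ^ 8 = a i n ^ 8 := by
        rw [← abs_pow, abs_of_nonneg (by positivity)]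
      linarith
  have h5 : (1 : ℝ) ≤ (n : ℝ) ^ 2 := one_le_pow₀ hn1
  have h6 : (1 + |C| * T i) * (n : ℝ) ^ 2 = (n : ℝ) ^ 2 + |C| * T i * (n : ℝ) ^ 2 := by ring
  rw [h6]
  linarith

theorem gme' (h1 : S_GMD) : S_GME := by
  intro ν _ hν ι T a A hF hC
  filter_upwards [h1 ν hν ι T a A hF hC] with ω hω
  intro k ψ R y₀ y₁ L hy₀ hy hψc hψL hψs
  rcases lt_or_ge R 0 with hR | hR
  · -- no test functions
    have hz : ∀ x y, ψ x y = 0 := fun x y => by
      by_contra hne
      exact absurd ((abs_nonneg x).trans (hψs x y hne).1) (not_le.2 hR)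
    refine ⟨1, 0, one_pos, fun i b => ?_⟩
    simp [hz]
  obtain ⟨c, C, hc, hC0, hG⟩ := hω y₀ y₁ k 1 1 hy₀ hy le_rfl
  have hL : 0 ≤ L := by
    have h2 := hψL 1 0 0
    simp only [sub_zero, abs_one, mul_one] at h2
    exact (abs_nonneg _).trans h2
  set K : ℝ := 2 * L * (1 + R) * (R + 2) with hK
  have hK0 : 0 ≤ K := by positivity
  refine ⟨c, K * C / y₀ ^ 2 * (y₁ - y₀), hc, fun i b => ?_⟩
  have hT : 1 ≤ T i := hF.1 i
  obtain ⟨B, hB⟩ := coef_bd hC i hT
  -- the scale
  obtain ⟨J, hJ1, hJ2⟩ : ∃ J : ℕ, T i ≤ 2 ^ J ∧ (2 : ℝ) ^ J ≤ 2 ^ 1 * T i := by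
    obtain ⟨n, h2, h3⟩ := exists_nat_pow_near hT (one_lt_two)
    refine ⟨n + 1, h3.le, ?_⟩
    rw [pow_succ, pow_one, mul_comm]
    linarith
  have hδ : C * (2 : ℝ) ^ (-(c * J)) ≤ C * T i ^ (-c) := by
    refine mul_le_mul_of_nonneg_left ?_ hC0
    have e1 : (2 : ℝ) ^ (-(c * J)) = ((2 : ℝ) ^ J) ^ (-c) := by
      rw [← Real.rpow_natCast, ← Real.rpow_mul (by norm_num)]
      congr 1
      ring
    rw [e1]
    exact Real.rpow_le_rpow_of_nonpos (by linarith) hJ1 (by linarith)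
  have hδ0 : 0 ≤ C * (2 : ℝ) ^ (-(c * J)) := by positivity
  set δ : ℝ := C * (2 : ℝ) ^ (-(c * J)) with hδd
  -- the functions
  set u : ℝ → ℝ → ℝ := fun x y => ph b (cm ω) (T i) (a i) x y with hu
  set v : ℝ → ℝ → ℝ := fun x y => ph b (fun _ => 1) (T i) (a i) x y with hv
  set S : ℝ → ℝ := fun y => √(∫ x in (0 : ℝ)..1, v x y ^ 2) ^ k with hS
  have huc : Continuous fun z : ℝ × ℝ => u z.2 (max z.1 y₀) := by
    have h2 := ph_cont (T := T i) (a := a i) (f := cm ω) b hy₀ hB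
      (fun n => Pool.Agent.Q13.EP.abs_cm_le ω n)
    exact h2.comp_continuous (f := fun z : ℝ × ℝ => (z.2, max z.1 y₀)) (by fun_prop)
      (fun z => show y₀ ≤ max z.1 y₀ from le_max_right _ _)
  have hvc : Continuous fun z : ℝ × ℝ => v z.2 (max z.1 y₀) := by
    have h2 := ph_cont (T := T i) (a := a i) (f := fun _ => (1 : ℝ)) b hy₀ hB
      (fun n => by rw [abs_one])
    exact h2.comp_continuous (f := fun z : ℝ × ℝ => (z.2, max z.1 y₀)) (by fun_prop)
      (fun z => show y₀ ≤ max z.1 y₀ from le_max_right _ _)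
  have hmax : ∀ y ∈ Icc y₀ y₁, max y y₀ = y := fun y h => max_eq_left h.1
  have hA : ContinuousOn (fun y => ∫ x in (-R)..R, ψ x y * u x y ^ k) (Icc y₀ y₁) := by
    have h2 : Continuous fun y => ∫ x in (-R)..R, ψ x y * u x (max y y₀) ^ k := by
      refine intervalIntegral.continuous_parametric_intervalIntegral_of_continuous' ?_ _ _
      have h3 : Continuous fun z : ℝ × ℝ => ψ z.2 z.1 :=
        hψc.comp (f := fun z : ℝ × ℝ => (z.2, z.1)) (by fun_prop)
      exact h3.mul (huc.pow k)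
    refine h2.continuousOn.congr fun y hy => ?_
    simp only [hmax y hy]
  have hS' : ContinuousOn S (Icc y₀ y₁) := by
    have h2 : Continuous fun y => √(∫ x in (0 : ℝ)..1, v x (max y y₀) ^ 2) ^ k := by
      refine (Continuous.pow ?_ k)
      refine Real.continuous_sqrt.comp ?_
      exact intervalIntegral.continuous_parametric_intervalIntegral_of_continuous' (hvc.pow 2) _ _
    refine h2.continuousOn.congr fun y hy => ?_
    simp only [hS, hmax y hy]
  have hψI : Continuous fun y => ∫ x in (-R)..R, ψ x y := by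
    refine intervalIntegral.continuous_parametric_intervalIntegral_of_continuous' ?_ _ _
    exact hψc.comp (f := fun z : ℝ × ℝ => (z.2, z.1)) (by fun_prop)
  have hinv : ContinuousOn (fun y : ℝ => (y ^ 2)⁻¹) (Icc y₀ y₁) := by
    refine ContinuousOn.inv₀ (Continuous.continuousOn (by fun_prop)) fun y hy => ?_
    have : 0 < y := hy₀.trans_le hy.1
    positivity
  have hI1 : IntervalIntegrable (fun y => (∫ x in (-R)..R, ψ x y * u x y ^ k) / y ^ 2)
      volume y₀ y₁ := by
    refine ContinuousOn.intervalIntegrable ?_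
    rw [uIcc_of_le hy]
    simp only [div_eq_mul_inv]
    exact hA.mul hinv
  have hI2 : IntervalIntegrable (fun y => (∫ x in (-R)..R, ψ x y) * S y / y ^ 2)
      volume y₀ y₁ := by
    refine ContinuousOn.intervalIntegrable ?_
    rw [uIcc_of_le hy]
    simp only [div_eq_mul_inv]
    exact (hψI.continuousOn.mul hS').mul hinv
  -- for fixed `y`
  have key : ∀ y ∈ Icc y₀ y₁, |(∫ x in (-R)..R, ψ x y * u x y ^ k) -
      gm k * ((∫ x in (-R)..R, ψ x y) * S y)| ≤ K * δ := by
    intro y hyI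
    have huy : Continuous fun x => u x y := by
      have h2 : Continuous fun x : ℝ => u x (max y y₀) :=
        huc.comp (f := fun x : ℝ => (y, x)) (by fun_prop)
      rwa [hmax y hyI] at h2
    have hψy : Continuous fun x => ψ x y := hψc.comp (f := fun x : ℝ => (x, y)) (by fun_prop)
    set F : ℝ → ℝ := fun x => u x y ^ k - gm k * S y with hFd
    have hFc : Continuous F := (huy.pow k).sub continuous_const
    have hFp : Function.Periodic F 1 := fun x => by
      have h2 := ph_per b (cm ω) (T i) (a i) y x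
      simp only at h2
      simp only [hFd, hu, h2]
    have hFi : ∀ α β : ℝ, 0 ≤ α → α ≤ β → β ≤ 1 → |∫ x in α..β, F x| ≤ δ := by
      intro α β h0 h2 h3
      have h4 := hG J (fun _ => i) (fun _ => b) (fun _ => 1) y α β (fun _ => ⟨hJ1, hJ2⟩)
        (fun _ => by rw [abs_one]) hyI.1 hyI.2 h0 h2 h3
      simp only [Finset.univ_unique, Finset.sum_singleton, one_mul] at h4
      have h5 : ∫ x in α..β, F x = (∫ x in α..β, u x y ^ k) - (β - α) * (gm k * S y) := by
        have hc1 : Continuous fun x => u x y ^ k := huy.pow k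
        change (∫ x in α..β, (u x y ^ k - gm k * S y)) = _
        rw [intervalIntegral.integral_sub (hc1.intervalIntegrable _ _)
          (continuous_const.intervalIntegrable _ _), intervalIntegral.integral_const,
          smul_eq_mul]
      rw [h5]
      exact h4
    have h2 := ibp hFc (g := fun x => ψ x y) (L := L) (M := (R + 2) * δ) hR
      (fun x x' => hψL x x' y) (fun x hx => (hψs x y hx).1)
      (fun x hx => (per_bd hFc hFp hFi x).trans
        (mul_le_mul_of_nonneg_right (by linarith) hδ0))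
    have h3 : ∫ x in (-R)..R, ψ x y * F x = (∫ x in (-R)..R, ψ x y * u x y ^ k) -
        gm k * ((∫ x in (-R)..R, ψ x y) * S y) := by
      have h4 : ∀ x, ψ x y * F x = ψ x y * u x y ^ k - (gm k * S y) * ψ x y := fun x => by
        simp only [hFd]
        ring
      have hc1 : Continuous fun x => ψ x y * u x y ^ k := hψy.mul (huy.pow k)
      have hc2 : Continuous fun x => (gm k * S y) * ψ x y := continuous_const.mul hψy
      simp only [h4]
      rw [intervalIntegral.integral_sub (hc1.intervalIntegrable _ _)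
        (hc2.intervalIntegrable _ _), intervalIntegral.integral_const_mul]
      ring
    rw [h3] at h2
    refine h2.trans (le_of_eq ?_)
    rw [hK]
    ring
  -- integration over `y`
  have h2 : (∫ y in y₀..y₁, (∫ x in (-R)..R, ψ x y * u x y ^ k) / y ^ 2) -
      gm k * (∫ y in y₀..y₁, (∫ x in (-R)..R, ψ x y) * S y / y ^ 2) =
      ∫ y in y₀..y₁, ((∫ x in (-R)..R, ψ x y * u x y ^ k) -
        gm k * ((∫ x in (-R)..R, ψ x y) * S y)) / y ^ 2 := by
    rw [← intervalIntegral.integral_const_mul, ← intervalIntegral.integral_sub hI1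
      (hI2.const_mul _)]
    refine intervalIntegral.integral_congr fun y _ => ?_
    ring
  have h3 : |∫ y in y₀..y₁, ((∫ x in (-R)..R, ψ x y * u x y ^ k) -
        gm k * ((∫ x in (-R)..R, ψ x y) * S y)) / y ^ 2| ≤ K * δ / y₀ ^ 2 * (y₁ - y₀) := by
    have h4 : ∀ y ∈ Set.uIoc y₀ y₁, ‖((∫ x in (-R)..R, ψ x y * u x y ^ k) -
        gm k * ((∫ x in (-R)..R, ψ x y) * S y)) / y ^ 2‖ ≤ K * δ / y₀ ^ 2 := by
      intro y hyy
      rw [uIoc_of_le hy] at hyy
      have hyp : 0 < y := hy₀.trans hyy.1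
      rw [Real.norm_eq_abs, abs_div, abs_of_pos (by positivity : 0 < y ^ 2)]
      exact div_le_div₀ (by positivity) (key y ⟨hyy.1.le, hyy.2⟩) (by positivity)
        (pow_le_pow_left₀ hy₀.le hyy.1.le 2)
    have h5 := intervalIntegral.norm_integral_le_of_norm_le_const h4
    rwa [Real.norm_eq_abs, abs_of_nonneg (by linarith : 0 ≤ y₁ - y₀)] at h5
  have h4 : K * δ / y₀ ^ 2 * (y₁ - y₀) ≤ K * C / y₀ ^ 2 * (y₁ - y₀) * T i ^ (-c) := by
    have h5 : K * δ ≤ K * (C * T i ^ (-c)) := mul_le_mul_of_nonneg_left hδ hK0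
    have h6 : 0 ≤ (y₁ - y₀) / y₀ ^ 2 := div_nonneg (by linarith) (by positivity)
    calc K * δ / y₀ ^ 2 * (y₁ - y₀) = K * δ * ((y₁ - y₀) / y₀ ^ 2) := by ring
      _ ≤ K * (C * T i ^ (-c)) * ((y₁ - y₀) / y₀ ^ 2) := mul_le_mul_of_nonneg_right h5 h6
      _ = _ := by ring
  rw [h2]
  exact h3.trans h4

theorem gme (h1 : S_GMD) (_ : S_SN2) : S_GME := gme' h1

end Pool.Agent.Q195.L2
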