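import Pool.Agent.Q255.L2.StmM
import Pool.Agent.Q65.L2.SNa
import Pool.Agent.Q241.L2.Kode
import Pool.Agent.Q13.EP.REC

/-!
Project L2M (helper255), job GME: preparations (integration against Lipschitz functions, continuity).
-/

set_option autoImplicit false

namespace Pool.Agent.Q195.L2

open Filter Topology MeasureTheory Set
open Pool.Agent.Q255.IC Pool.Agent.Q255.IR Pool.Agent.Q255.EP Pool.Agent.Q255.L2 Pool.Agent.Q65.L2

/-- the primitive of a periodic function with small integrals over subintervals of `[0, 1]` -/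
theorem per_bd {F : ℝ → ℝ} (hF : Continuous F) (hp : Function.Periodic F 1) {δ : ℝ}
    (h : ∀ α β : ℝ, 0 ≤ α → α ≤ β → β ≤ 1 → |∫ x in α..β, F x| ≤ δ) (x : ℝ) :
    |∫ t in (0 : ℝ)..x, F t| ≤ (|x| + 2) * δ := by
  have hI : ∀ a b : ℝ, IntervalIntegrable F volume a b := fun a b => hF.intervalIntegrable a b
  have hδ : 0 ≤ δ := (abs_nonneg _).trans (h 0 1 le_rfl zero_le_one le_rfl)
  have hx := Int.floor_add_fract x
  have h1 : ∫ t in (0 : ℝ)..x, F t =
      (∫ t in (0 : ℝ)..(⌊x⌋ : ℝ), F t) + ∫ t in (⌊x⌋ : ℝ)..x, F t :=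
    (intervalIntegral.integral_add_adjacent_intervals (hI _ _) (hI _ _)).symm
  have h2 : ∫ t in (0 : ℝ)..(⌊x⌋ : ℝ), F t = ⌊x⌋ * ∫ t in (0 : ℝ)..1, F t := by
    have h3 := hp.intervalIntegral_add_zsmul_eq ⌊x⌋ 0 hI
    simp only [zero_add, zsmul_eq_mul, mul_one] at h3
    exact h3
  have h4 : ∫ t in (⌊x⌋ : ℝ)..x, F t = ∫ t in (0 : ℝ)..Int.fract x, F t := by
    have h5 : ∀ t, F (t + (⌊x⌋ : ℝ)) = F t := fun t => by
      have h6 := hp.int_mul ⌊x⌋ t
      simpa using h6
    have h7 : ∫ t in (0 : ℝ)..Int.fract x, F (t + (⌊x⌋ : ℝ)) =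
        ∫ t in (0 + (⌊x⌋ : ℝ))..(Int.fract x + (⌊x⌋ : ℝ)), F t :=
      intervalIntegral.integral_comp_add_right F _
    rw [zero_add, add_comm (Int.fract x), hx] at h7
    rw [← h7]
    exact intervalIntegral.integral_congr fun t _ => (h5 t)
  have h8 := h 0 1 le_rfl zero_le_one le_rfl
  have h9 := h 0 (Int.fract x) le_rfl (Int.fract_nonneg x) (Int.fract_lt_one x).le
  have h10 : |(⌊x⌋ : ℝ)| ≤ |x| + 1 := by
    have e1 : (⌊x⌋ : ℝ) = x - Int.fract x := by linarith
    rw [e1]
    refine (abs_sub _ _).trans ?_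
    rw [abs_of_nonneg (Int.fract_nonneg x)]
    linarith [(Int.fract_lt_one x).le]
  rw [h1, h2, h4]
  calc |(⌊x⌋ : ℝ) * (∫ t in (0 : ℝ)..1, F t) + ∫ t in (0 : ℝ)..Int.fract x, F t|
      ≤ |(⌊x⌋ : ℝ)| * |∫ t in (0 : ℝ)..1, F t| + |∫ t in (0 : ℝ)..Int.fract x, F t| := by
        refine (abs_add_le _ _).trans ?_
        rw [abs_mul]
    _ ≤ (|x| + 1) * δ + δ :=
        add_le_add (mul_le_mul h10 h8 (abs_nonneg _) (by positivity)) h9
    _ = (|x| + 2) * δ := by ring

/-- integration by parts against a Lipschitz function of compact support -/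
theorem ibp {F g : ℝ → ℝ} (hF : Continuous F) {L M R : ℝ} (hR : 0 ≤ R)
    (hg : ∀ x x', |g x - g x'| ≤ L * |x - x'|) (hs : ∀ x, g x ≠ 0 → |x| ≤ R)
    (hM : ∀ x, |x| ≤ R → |∫ t in (0 : ℝ)..x, F t| ≤ M) :
    |∫ x in (-R)..R, g x * F x| ≤ 2 * L * (1 + R) * M := by
  have hL : 0 ≤ L := by
    have h1 := hg 1 0
    simp only [sub_zero, abs_one, mul_one] at h1
    exact (abs_nonneg _).trans h1
  have hM0 : 0 ≤ M := (abs_nonneg _).trans (hM 0 (by rw [abs_zero]; exact hR))
  have hlip : LipschitzWith (Real.toNNReal L) g := by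
    refine LipschitzWith.of_dist_le_mul fun x x' => ?_
    rw [Real.dist_eq, Real.dist_eq, Real.coe_toNNReal L hL]
    exact hg x x'
  have hgc : AbsolutelyContinuousOnInterval g (-R) R :=
    hlip.lipschitzOnWith.absolutelyContinuousOnInterval
  set Φ : ℝ → ℝ := fun x => ∫ t in (0 : ℝ)..x, F t with hΦ
  have hd : ∀ x, HasDerivAt Φ (F x) x := fun x =>
    intervalIntegral.integral_hasDerivAt_right (hF.intervalIntegrable _ _)
      (hF.stronglyMeasurableAtFilter _ _) hF.continuousAt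
  have hdd : deriv Φ = F := funext fun x => (hd x).deriv
  have hΦc : Continuous Φ := continuous_iff_continuousAt.2 fun x => (hd x).continuousAt
  have hcd : ContDiff ℝ 1 Φ := by
    rw [contDiff_one_iff_deriv]
    exact ⟨fun x => (hd x).differentiableAt, by rw [hdd]; exact hF⟩
  have hΦa : AbsolutelyContinuousOnInterval Φ (-R) R :=
    hcd.contDiffOn.absolutelyContinuousOnInterval
  have h1 := hgc.integral_mul_deriv_eq_deriv_mul hΦa
  rw [hdd] at h1
  have hgR : ∀ x, |x| = R → |g x| ≤ L := by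
    intro x hx
    rcases le_or_gt 0 x with h0 | h0
    · have h2 : g (x + 1) = 0 := by
        by_contra hne
        have h3 := hs _ hne
        rw [abs_of_nonneg (by linarith)] at h3
        rw [abs_of_nonneg h0] at hx
        linarith
      have h3 := hg x (x + 1)
      rw [h2, sub_zero] at h3
      have : |x - (x + 1)| = 1 := by
        rw [show x - (x + 1) = -1 by ring, abs_neg, abs_one]
      rw [this, mul_one] at h3
      exact h3
    · have h2 : g (x - 1) = 0 := by
        by_contra hne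
        have h3 := hs _ hne
        rw [abs_of_neg (by linarith)] at h3
        rw [abs_of_neg h0] at hx
        linarith
      have h3 := hg x (x - 1)
      rw [h2, sub_zero] at h3
      have : |x - (x - 1)| = 1 := by
        rw [show x - (x - 1) = 1 by ring, abs_one]
      rw [this, mul_one] at h3
      exact h3
  have hder : ∀ x, |deriv g x| ≤ L := fun x => by
    have h2 := norm_deriv_le_of_lipschitz (x₀ := x) hlip
    rwa [Real.norm_eq_abs, Real.coe_toNNReal L hL] at h2
  have h2 : |∫ x in (-R)..R, deriv g x * Φ x| ≤ L * M * (2 * R) := by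
    have h3 : ∀ x ∈ Set.uIoc (-R) R, ‖deriv g x * Φ x‖ ≤ L * M := by
      intro x hx
      rw [uIoc_of_le (by linarith)] at hx
      rw [Real.norm_eq_abs, abs_mul]
      exact mul_le_mul (hder x) (hM x (abs_le.2 ⟨hx.1.le, hx.2⟩)) (abs_nonneg _) hL
    have h4 := intervalIntegral.norm_integral_le_of_norm_le_const h3
    rw [Real.norm_eq_abs] at h4
    refine h4.trans (le_of_eq ?_)
    rw [show R - -R = 2 * R by ring, abs_of_nonneg (by linarith)]
  have h3 : |g R * Φ R| ≤ L * M := by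
    rw [abs_mul]
    exact mul_le_mul (hgR R (abs_of_nonneg hR)) (hM R (abs_of_nonneg hR).le) (abs_nonneg _) hL
  have h4 : |g (-R) * Φ (-R)| ≤ L * M := by
    have h5 : |(-R)| = R := by rw [abs_neg, abs_of_nonneg hR]
    rw [abs_mul]
    exact mul_le_mul (hgR (-R) h5) (hM (-R) h5.le) (abs_nonneg _) hL
  rw [h1]
  have h5 := abs_sub (g R * Φ R - g (-R) * Φ (-R)) (∫ x in (-R)..R, deriv g x * Φ x)
  have h6 := abs_sub (g R * Φ R) (g (-R) * Φ (-R))
  nlinarith

end Pool.Agent.Q195.L2
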